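import Pool.Agent.U329.Klamkin

/-!
# Klamkin's problem on perimeter-bisecting points

Let `C = ∂K` be the boundary of a compact convex set `K` with nonempty interior in the Euclidean
plane and let `O` be a point such that for every line through `O` the parts of `C` in the two open
half-planes bounded by the line have equal length.  Then `C` is centrally symmetric about `O`.

A line through `O` is given by a nonzero normal vector `n`; the two open half-planes are
`{x | 0 < ⟪n, x - O⟫}` and `{x | ⟪n, x - O⟫ < 0}`; length is the one-dimensional Hausdorff measure.

Proof.  `O` is an interior point.  Let `O = 0`.  The parts of `C` in opposite open sectors with apex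
`0` have equal length.  If `K ≠ -K`, take a maximal open sector `S` on which the radial function of
`K` is larger than that of `-K`; its angle is at most `π` and the two radial functions agree on its
two sides.  Then the convex sets `K ∩ cl S` and `-K ∩ cl S` have the same perimeter, although the
second is a proper subset of the first: this contradicts the strict monotonicity of the perimeter.
-/

set_option autoImplicit false

namespace Pool.Agent.Results.MP_7f2f72_gt.PerimeterBisectors

open MeasureTheory

theorem result (K : Set (EuclideanSpace ℝ (Fin 2))) (hK : IsCompact K) (hc : Convex ℝ K)
    (hi : (interior K).Nonempty) (O : EuclideanSpace ℝ (Fin 2))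
    (h : ∀ n : EuclideanSpace ℝ (Fin 2), n ≠ 0 →
      Measure.hausdorffMeasure 1 (frontier K ∩ {x | 0 < inner ℝ n (x - O)}) =
        Measure.hausdorffMeasure 1 (frontier K ∩ {x | inner ℝ n (x - O) < 0})) :
    (fun x => (2 : ℝ) • O - x) '' frontier K = frontier K :=
  Pool.Agent.U329.Klam.klamkin hK hc hi O h

end Pool.Agent.Results.MP_7f2f72_gt.PerimeterBisectors
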